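import Pool.Agent.Helper89.GC.Main
import Pool.Agent.Helper29.OS.Final
import Pool.Agent.Helper5.HP.Final2

set_option autoImplicit false

/-!
The uniform theorem for cubic fourfolds containing a plane.
-/

namespace Pool.Agent.Helper89.GC

open MvPolynomial Module Pool.Agent.Helper29.HP

/-- a quotient space of sections spanned by one section has dimension one -/
theorem finrank_eq_one {d ν : P3} {k : ℕ} {s : P3} (hs : ¬ d ∣ s)
    (hmem : ∃ G : P3, s.IsHomogeneous (k + 3) ∧ G.IsHomogeneous 3 ∧ d ∣ s ^ 2 - ν * G)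
    (hun : ∀ t H : P3, t.IsHomogeneous (k + 3) → H.IsHomogeneous 3 → d ∣ t ^ 2 - ν * H →
      ∃ a : ℂ, d ∣ t - C a * s) :
    finrank ℂ (Submodule.span ℂ {f : P3 ⧸ Ideal.span {d} |
      ∃ s G : P3, s.IsHomogeneous (k + 3) ∧ G.IsHomogeneous 3 ∧
        d ∣ s ^ 2 - ν * G ∧ Ideal.Quotient.mk (Ideal.span {d}) s = f}) = 1 := by
  have h0 : Ideal.Quotient.mk (Ideal.span {d}) s ≠ 0 := by
    intro h
    exact hs (Ideal.mem_span_singleton.mp (Ideal.Quotient.eq_zero_iff_mem.mp h))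
  have h1 : Submodule.span ℂ {f : P3 ⧸ Ideal.span {d} |
      ∃ s G : P3, s.IsHomogeneous (k + 3) ∧ G.IsHomogeneous 3 ∧
        d ∣ s ^ 2 - ν * G ∧ Ideal.Quotient.mk (Ideal.span {d}) s = f} =
      Submodule.span ℂ {Ideal.Quotient.mk (Ideal.span {d}) s} := by
    apply le_antisymm
    · rw [Submodule.span_le]
      rintro f ⟨t, H, ht, hH, htH, rfl⟩
      obtain ⟨a, ha⟩ := hun t H ht hH htH
      rw [SetLike.mem_coe, Submodule.mem_span_singleton]
      refine ⟨a, ?_⟩
      have h2 : Ideal.Quotient.mk (Ideal.span {d}) (t - C a * s) = 0 :=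
        Ideal.Quotient.eq_zero_iff_mem.mpr (Ideal.mem_span_singleton.mpr ha)
      rw [map_sub, sub_eq_zero] at h2
      rw [h2, ← smul_eq_C_mul]
      rfl
    · rw [Submodule.span_le]
      rintro f rfl
      obtain ⟨G, hs1, hG, hsG⟩ := hmem
      exact Submodule.subset_span ⟨s, G, hs1, hG, hsG, rfl⟩
  rw [h1]
  exact finrank_span_singleton h0

/-- **Cubic fourfolds containing a plane are rational as soon as one of the theta characteristics
of the discriminant curve defined by the quadric bundle and the curves on the double plane is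
even.** -/
theorem uniform (F : MvPolynomial (Fin 6) ℂ) (hF : F.IsHomogeneous 3)
    (hs : ∀ x : Fin 6 → ℂ, x ≠ 0 → ∃ i, eval x (pderiv i F) ≠ 0)
    (w : Basis (Fin 3 ⊕ Fin 3) ℂ (Fin 6 → ℂ))
    (N : Matrix (Fin 4) (Fin 4) (MvPolynomial (Fin 3) ℂ)) (hN : N.IsSymm)
    (hQ : ∀ (y z : Fin 3 → ℂ) (s : ℂ),
      eval (∑ i, y i • w (.inl i) + s • ∑ i, z i • w (.inr i)) F =
        s * ∑ i, ∑ j, eval z (N i j) * (![y 0, y 1, y 2, s] : Fin 4 → ℂ) i *
          (![y 0, y 1, y 2, s] : Fin 4 → ℂ) j)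
    (hD : ∀ z : Fin 3 → ℂ, z ≠ 0 → eval z N.det = 0 → ∃ i, eval z (pderiv i N.det) ≠ 0)
    (μ ν : MvPolynomial (Fin 3) ℂ) (hμD : ¬ N.det ∣ μ)
    (hsp : ∀ π, Irreducible π → π ∣ μ → ∃ g h, ¬ π ∣ h ∧ π ∣ g ^ 2 - N.det * h ^ 2)
    (hν : ν = μ ∨ ν = μ * N.adjugate 3 3) (k : ℕ) (hk : ν.IsHomogeneous (2 * k + 3))
    (hev : Even (finrank ℂ (Submodule.span ℂ {f : MvPolynomial (Fin 3) ℂ ⧸ Ideal.span {N.det} |
      ∃ s G : MvPolynomial (Fin 3) ℂ, s.IsHomogeneous (k + 3) ∧ G.IsHomogeneous 3 ∧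
        N.det ∣ s ^ 2 - ν * G ∧ Ideal.Quotient.mk (Ideal.span {N.det}) s = f}))) :
    (Ideal.span {aeval (Fin.cons 1 X : Fin 6 → MvPolynomial (Fin 5) ℂ) F}).IsPrime ∧
      Nonempty (FractionRing (MvPolynomial (Fin 5) ℂ ⧸
          Ideal.span {aeval (Fin.cons 1 X : Fin 6 → MvPolynomial (Fin 5) ℂ) F}) ≃ₐ[ℂ]
        FractionRing (MvPolynomial (Fin 4) ℂ)) := by
  obtain ⟨c, hP, hNc, hr⟩ := exists_cub F hF hs w N hN hQ
  have hdet : N.det = C 81 * c.disc := by rw [hNc, three_smul_det]; rfl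
  have h81 : (81 : ℂ) ≠ 0 := by norm_num
  have hsm := smooth_scale hdet hD
  have hδh : c.disc.IsHomogeneous 6 := c.disc_hom
  have hirr : Irreducible c.disc := irreducible_of_smooth (by norm_num) hδh hsm
  rcases hν with rfl | hν
  · -- odd degree
    apply hr
    have hI : (Ideal.span {N.det} : Ideal P3) = Ideal.span {c.disc} := by
      rw [hdet]
      exact Ideal.span_singleton_mul_left_unit (isUnit_CC h81) _
    have hev' : Even (finrank ℂ (Sig c.disc ν k)) := by
      have h1 := Pool.Agent.Helper29.OS.sig_congr (d := c.disc) (μ := ν) (k := k)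
        (Ideal.span {N.det}) hI
        (fun s G => N.det ∣ s ^ 2 - ν * G) (fun s G => by rw [hdet, C_dvd_iff h81])
      rw [← h1]
      exact hev
    exact rat4_of_even hP hsm hk (fun h => hμD (by rw [hdet, C_dvd_iff h81]; exact h))
      (split_scale hdet hsp) hev'
  · -- even degree
    have hμ : μ.IsHomogeneous (2 * k) := by
      have hμ0 : μ ≠ 0 := by
        rintro rfl
        exact hμD (dvd_zero _)
      have hadj : N.adjugate 3 3 = C 27 * (c.Nm (X : Fin 3 → P3)).adjugate 3 3 := by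
        rw [hNc, three_smul_adj]
      have h33 : (c.Nm (X : Fin 3 → P3)).adjugate 3 3 ≠ 0 := by
        intro h
        exact adj33_not_dvd hirr (h ▸ dvd_zero _)
      have hadj0 : N.adjugate 3 3 ≠ 0 := by
        rw [hadj]
        exact mul_ne_zero (by simp) h33
      have hadjh : (N.adjugate 3 3).IsHomogeneous 3 := by
        obtain ⟨n, hn, h3⟩ := c.adj_hom 3 3
        have hw : Pool.Agent.Helper16.wt 3 = 0 := rfl
        rw [hw] at hn
        have hn' : n = 3 := by omega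
        subst hn'
        rw [hadj]
        exact h3.C_mul 27
      obtain ⟨a, b, ha, hb, hab⟩ := Pool.Agent.Helper16.hom_factor (hν ▸ hk)
        (mul_ne_zero hμ0 hadj0)
      have hb3 : b = 3 := hb.inj_right hadjh hadj0
      have ha2 : a = 2 * k := by omega
      exact ha2 ▸ ha
    refine rational_of_not_unique F hF hs w N hN hQ hD k μ hμ hμD hsp ?_
    rintro ⟨s, G, hs1, hG, hsG, hds, hun⟩
    have h1 : finrank ℂ (Submodule.span ℂ {f : MvPolynomial (Fin 3) ℂ ⧸ Ideal.span {N.det} |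
      ∃ s G : MvPolynomial (Fin 3) ℂ, s.IsHomogeneous (k + 3) ∧ G.IsHomogeneous 3 ∧
        N.det ∣ s ^ 2 - ν * G ∧ Ideal.Quotient.mk (Ideal.span {N.det}) s = f}) = 1 := by
      apply finrank_eq_one hds
      · exact ⟨G, hs1, hG, by rw [hν]; exact hsG⟩
      · intro t H ht hH htH
        exact hun t H ht hH (by rw [← hν]; exact htH)
    rw [h1] at hev
    exact absurd hev (by decide)

end Pool.Agent.Helper89.GC
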