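import Pool.Agent.Helper29.HP.Defs

set_option autoImplicit false

/-!
Project GC (MP_ffd2c1_ag): removal of the hypotheses irreducible and smooth at the points of the
discriminant on the splitting curve of odd degree.  Definitions shared by all pieces.
-/

namespace Pool.Agent.Helper89.GC

open MvPolynomial Pool.Agent.Helper29.HP

/-- every irreducible factor of `μ` splits in the double cover branched along `δ = 0` -/
def Spl (δ μ : P3) : Prop :=
  ∀ π : P3, Irreducible π → π ∣ μ → ∃ g h : P3, ¬ π ∣ h ∧ π ∣ g ^ 2 - δ * h ^ 2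

/-- the form `δ` is smooth -/
def Sm (δ : P3) : Prop :=
  ∀ z : Fin 3 → ℂ, z ≠ 0 → eval z δ = 0 → ∃ i, eval z (pderiv i δ) ≠ 0

/-- a solution `p ^ 2 - δ q ^ 2 = μ A` of the norm equation in forms -/
structure NE (δ μ p q A : P3) (N a : ℕ) : Prop where
  hp : p.IsHomogeneous (N + 3)
  hq : q.IsHomogeneous N
  hA : A.IsHomogeneous a
  eq : p ^ 2 - δ * q ^ 2 = μ * A

/-- the residual form does not vanish at the common zeros of `μ` and `δ` -/
def Av (δ μ A : P3) : Prop :=
  ∀ z : Fin 3 → ℂ, z ≠ 0 → eval z μ = 0 → eval z δ = 0 → eval z A ≠ 0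

/-- the member `A + 2 t B + t ^ 2 E` of a quadratic family of forms, over an extension of `ℂ` -/
noncomputable def Fam {K : Type*} [Field K] [Algebra ℂ K] (t : K) (A B E : P3) :
    MvPolynomial (Fin 3) K :=
  map (algebraMap ℂ K) A + C (2 * t) * map (algebraMap ℂ K) B +
    C (t ^ 2) * map (algebraMap ℂ K) E

end Pool.Agent.Helper89.GC
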