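import Pool.Agent.Helper89.GC.St.G6
import Pool.Agent.Helper89.GC.St.G7
import Pool.Agent.Helper89.GC.St.G8
import Pool.Agent.Helper89.GC.St.G10
import Pool.Agent.Helper89.GC.St.G12
import Pool.Agent.Helper89.OS.Main

set_option autoImplicit false

/-!
Assembly of project GC.
-/

namespace Pool.Agent.Helper89.GC

open MvPolynomial Pool.Agent.Helper29.HP Pool.Agent.Helper16 Pool.Agent.Helper5.HP Module

/-- a good representative of the class of a splitting curve of odd degree -/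
theorem exists_good {δ μ : P3} {k : ℕ} (hδ : δ.IsHomogeneous 6) (hsm : Sm δ)
    (hμ : μ.IsHomogeneous (2 * k + 3)) (hμδ : ¬ δ ∣ μ) (hsp : Spl δ μ) :
    ∃ (k' : ℕ) (μ' g h : P3), μ'.IsHomogeneous (2 * k' + 3) ∧ Irreducible μ' ∧
      g.IsHomogeneous (k + k' + 3) ∧ h.IsHomogeneous (k + k') ∧ μ' ∣ g ^ 2 - δ * h ^ 2 ∧
      δ ∣ g ^ 2 - μ * μ' ∧ ¬ δ ∣ g ∧
      ∀ z : Fin 3 → ℂ, z ≠ 0 → eval z μ' = 0 → eval z δ = 0 → eval z h ≠ 0 := by
  have hirr : Irreducible δ := irreducible_of_smooth (by norm_num) hδ hsm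
  obtain ⟨N₀, hN₀⟩ := exists_all hδ hsm hμ hμδ hsp
  obtain ⟨N, hN1, hN2⟩ : ∃ N, N₀ ≤ N ∧ 2 * k + 3 ≤ N := ⟨max N₀ (2 * k + 3), le_max_left _ _,
    le_max_right _ _⟩
  obtain ⟨p, q₀, A₀, h0, hA0⟩ := hN₀ N hN1
  obtain ⟨q, A, h1, hA, hq⟩ := exists_q hδ hsm hμ (by omega) hN2 h0 hA0
  obtain ⟨L, hL, hLt⟩ := pencil_irr hδ hsm hμ (by omega) hN2 hμδ h1 hA hq
  obtain ⟨S, hS, hSt⟩ := pencil_exc hδ hsm hμ (by omega) hN2 h1 hA hq hL
  obtain ⟨t, ht, hirrt⟩ := hLt S hS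
  have hS' := hSt t ht
  clear hSt hLt
  set F : P3 := A + C (2 * t) * (p * L) + C (t ^ 2) * (μ * L ^ 2) with hF
  have hN3 : N = k + (N - k) := by omega
  have ha : 2 * N + 6 - (2 * k + 3) = 2 * (N - k) + 3 := by omega
  have hFh : F.IsHomogeneous (2 * (N - k) + 3) := by
    have e1 : A.IsHomogeneous (2 * (N - k) + 3) := ha ▸ h1.hA
    have e2 : (C (2 * t) * (p * L)).IsHomogeneous (2 * (N - k) + 3) := by
      have := (h1.hp.mul hL).C_mul (2 * t)
      have e : N + 3 + (N + 3 - (2 * k + 3)) = 2 * (N - k) + 3 := by omega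
      rwa [e] at this
    have e3 : (C (t ^ 2) * (μ * L ^ 2)).IsHomogeneous (2 * (N - k) + 3) := by
      have := (hμ.mul (hL.pow 2)).C_mul (t ^ 2)
      have e : 2 * k + 3 + (N + 3 - (2 * k + 3)) * 2 = 2 * (N - k) + 3 := by omega
      rwa [e] at this
    exact (e1.add e2).add e3
  have hkey : (p + C t * (μ * L)) ^ 2 - δ * q ^ 2 = μ * F := by
    have e1 : (C (2 * t) : P3) = C 2 * C t := by rw [C_mul]
    have e2 : (C (t ^ 2) : P3) = C t ^ 2 := by rw [C_pow]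
    have e3 : (C 2 : P3) = 2 := map_ofNat C 2
    rw [hF, e1, e2, e3]
    linear_combination h1.eq
  have hFδ : ¬ δ ∣ F := by
    rintro ⟨r, hr⟩
    obtain ⟨z, hz0, hz⟩ := exists_common_zero (σ := Fin 3) ![μ, δ] (by
      intro i
      fin_cases i
      · exact hom_eval_zero hμ (by omega)
      · exact hom_eval_zero hδ (by omega)) (by simp)
    have hz1 : eval z μ = 0 := hz 0
    have hz2 : eval z δ = 0 := hz 1
    exact (hS' z hz0 hz2 (by rw [hr, map_mul, hz2, zero_mul])).1 hz1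
  refine ⟨N - k, F, p + C t * (μ * L), q, hFh, hirrt, ?_, ?_, ?_, ?_, ?_, ?_⟩
  · rw [← hN3]
    refine h1.hp.add ?_
    have := (hμ.mul hL).C_mul t
    have e : 2 * k + 3 + (N + 3 - (2 * k + 3)) = N + 3 := by omega
    rwa [e] at this
  · rw [← hN3]; exact h1.hq
  · exact ⟨μ, by rw [hkey]; ring⟩
  · exact ⟨q ^ 2, by linear_combination hkey⟩
  · intro hd
    have h2 : δ ∣ μ * F := by
      rw [← hkey]
      exact dvd_sub (hd.trans (dvd_pow_self _ two_ne_zero)) (dvd_mul_right _ _)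
    rcases hirr.prime.dvd_or_dvd h2 with h3 | h3
    · exact hμδ h3
    · exact hFδ h3
  · intro z hz0 hz1 hz2
    exact (hS' z hz0 hz2 hz1).2

/-- a cubic fourfold containing a plane, with smooth discriminant, is rational if there is a plane
curve of odd degree whose components split in the double plane and whose theta characteristic is
even -/
theorem rat4_of_even {c : Cub (I6 → ℂ)} (hP : c.Iso P0) (hsm : Sm c.disc)
    {μ : P3} {k : ℕ} (hμ : μ.IsHomogeneous (2 * k + 3)) (hμδ : ¬ c.disc ∣ μ)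
    (hsp : Spl c.disc μ) (hev : Even (finrank ℂ (Sig c.disc μ k))) : c.Rat4 := by
  obtain ⟨k', μ', g, h, hμ', hi, hg, hh, hgh, hd, hgδ, hz⟩ :=
    exists_good c.disc_hom hsm hμ hμδ hsp
  have h1 := finrank_Sig_eq c.disc_hom hsm hμ hμ' hg hgδ hd
  rw [← h1] at hev
  exact Pool.Agent.Helper89.OS.one_sided hP hsm hμ' hi hg hh hgh hz hev

end Pool.Agent.Helper89.GC
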